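import Pool.Agent.Lib.MP_35679e_nt.Boxes

set_option autoImplicit false

namespace Pool.Agent.Results.MP_35679e_nt.QuadraticCounterexample

open MeasureTheory

/-- The Weyl sum `f_k(α; X) = ∑_{1 ≤ x ≤ X} e(α_1 x + ⋯ + α_k x^k)`;
the coordinate `j : Fin k` of `α` is `α_{j+1}`. -/
noncomputable def weylSum (k : ℕ) (α : Fin k → ℝ) (X : ℝ) : ℂ :=
  ∑ x ∈ Finset.Icc (1 : ℕ) ⌊X⌋₊,
    Complex.exp (2 * Real.pi * Complex.I * ((∑ j : Fin k, α j * (x : ℝ) ^ (j.val + 1) : ℝ) : ℂ))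

/-- The mean value `M_{s,k}(X; B) = ∫_B |f_k(α; X)|^{2s} dα`. -/
noncomputable def meanValue (s : ℝ) (k : ℕ) (X : ℝ) (B : Set (Fin k → ℝ)) : ℝ :=
  ∫ α in B, ‖weylSum k α X‖ ^ (2 * s)

/-- The bound of the extended main conjecture for fixed `k`, `s`, `ε`: there is a constant `C`
with `M_{s,k}(X; B) ≤ C X^ε (X^s mes(B) + X^{2s - k(k+1)/2})` for all real `X ≥ 1` and all
(Borel) measurable `B ⊆ [0,1)^k`. -/
def ExtendedBound (k : ℕ) (s ε : ℝ) : Prop :=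
  ∃ C : ℝ, ∀ X : ℝ, 1 ≤ X → ∀ B : Set (Fin k → ℝ), MeasurableSet B →
    (B ⊆ Set.pi Set.univ fun _ => Set.Ico (0 : ℝ) 1) →
    meanValue s k X B ≤
      C * (X ^ ε * (X ^ s * (volume B).toReal + X ^ (2 * s - (k : ℝ) * (k + 1) / 2)))

/-- For `k = 2` the bound fails whenever `0 < 2ε < min(s, 3 - s)`; in particular it fails for
every `s` with `5/2 = k(k+1)/4 + 1 ≤ s < 3` and every small enough `ε > 0`. -/
theorem result (s ε : ℝ) (hε : 0 < ε) (h₁ : 2 * ε < s) (h₂ : 2 * ε < 3 - s) :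
    ¬ ExtendedBound 2 s ε := by
  rintro ⟨C, hC⟩
  obtain ⟨N, hN, B, hB, hsub, hlt⟩ := Pool.Agent.Lib.MP_35679e_nt.main s ε C hε h₁ h₂
  have h := hC N (by exact_mod_cast hN) B hB hsub
  have e : (2 * s - ((2 : ℕ) : ℝ) * (((2 : ℕ) : ℝ) + 1) / 2) = 2 * s - 3 := by
    push_cast; ring
  rw [e] at h
  simp only [meanValue, weylSum, Nat.floor_natCast] at h
  exact absurd (lt_of_lt_of_le hlt h) (lt_irrefl _)

/-- The conjecture Q1, quantified over all `k ≥ 1`, is therefore false. -/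
example : ¬ ∀ k : ℕ, 1 ≤ k → ∀ s : ℝ, (k : ℝ) * (k + 1) / 4 + 1 ≤ s → ∀ ε : ℝ, 0 < ε →
    ExtendedBound k s ε := fun h =>
  result (5 / 2) (1 / 8) (by norm_num) (by norm_num) (by norm_num)
    (h 2 (by norm_num) (5 / 2) (by norm_num) (1 / 8) (by norm_num))

end Pool.Agent.Results.MP_35679e_nt.QuadraticCounterexample
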